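import Pool.Agent.MP_c6cf52_lc.N.Walk

/-! A colouring that takes every value on all rectangles of type `κ * κ` below `μ * ω`. -/

namespace Pool.Agent.MP_c6cf52_lc.N

open Cardinal Set Sis W

universe u

variable {κ μ : Cardinal.{u}}

theorem sdr {I X : Type u} [Nonempty X] (hI : #I ≤ μ) (F : I → Set X) (hF : ∀ i, μ ≤ #(F i)) :
    ∃ t : I → X, Function.Injective t ∧ ∀ i, t i ∈ F i := by
  obtain ⟨g⟩ : Nonempty (I ↪ K μ) := (Cardinal.le_def _ _).1 (by simpa using hI)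
  obtain ⟨T, hT⟩ := exists_rec (α := K μ) (Z := X)
    (fun k r z => ∀ i, g i = k → z ∈ F i ∧ ∀ j hj, r j hj ≠ z) fun k r _ => by
      by_cases a : ∃ i, g i = k
      · obtain ⟨i, rfl⟩ := a
        obtain ⟨z, z1, z2⟩ : ∃ z ∈ F i, z ∉ range fun j : Iio (g i) => r j.1 j.2 := by
          by_contra hn
          push Not at hn
          exact ((mk_range_le.trans_lt (iio_lt (g i))).trans_le (hF i)).not_ge
            (mk_le_mk_of_subset hn)
        exact ⟨z, fun i' b => ⟨g.injective b ▸ z1, fun j hj c => z2 ⟨⟨j, hj⟩, c⟩⟩⟩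
      · exact ⟨Classical.arbitrary X, fun i b => (a ⟨i, b⟩).elim⟩
  refine ⟨fun i => T (g i), fun i i' a => ?_, fun i => (hT _ i rfl).1⟩
  rcases lt_trichotomy (g i) (g i') with r | r | r
  · exact absurd a ((hT _ i' rfl).2 _ r)
  · exact g.injective r
  · exact absurd a.symm ((hT _ i rfl).2 _ r)

theorem exists_onto [Nonempty (K κ)] (hμ : ℵ₀ ≤ μ) (hs : ∀ k : K κ, #(Iio k) ≤ μ)
    (Γ : K κ → Set (K κ)) : ∃ H : K κ → K κ → K κ,
      ∀ y α δ, α < y → δ < y → μ ≤ #(Γ α) → ∃ p ∈ Γ α, H y p = δ := by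
  have h1 : ∀ y : K κ, ∃ H : K κ → K κ,
      ∀ α δ, α < y → δ < y → μ ≤ #(Γ α) → ∃ p ∈ Γ α, H p = δ := fun y => by
    obtain ⟨t, t1, t2⟩ := sdr (μ := μ) (I := {p : Iio y × Iio y | μ ≤ #(Γ p.1.1)})
      ((mk_set_le _).trans (by
        rw [mk_prod, lift_id]
        exact (mul_le_mul' (hs y) (hs y)).trans (mul_eq_self hμ).le))
      (fun p => Γ p.1.1.1) fun p => p.2
    exact ⟨Function.extend t (fun p => p.1.2.1) id, fun α δ a b c =>
      ⟨_, t2 ⟨(⟨α, a⟩, ⟨δ, b⟩), c⟩, t1.extend_apply _ _ _⟩⟩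
  choose H hH using h1
  exact ⟨H, hH⟩

theorem exists_mx (X : Type u) [LinearOrder X] [Nonempty X] : ∃ mx : Set X → X,
    ∀ S : Set X, S.Finite → S.Nonempty → mx S ∈ S ∧ ∀ y ∈ S, y ≤ mx S := by
  have h1 : ∀ S : Set X, ∃ x, S.Finite → S.Nonempty → x ∈ S ∧ ∀ y ∈ S, y ≤ x := fun S => by
    by_cases a : S.Finite ∧ S.Nonempty
    · obtain ⟨x, hx⟩ := exists_max_image S id a.1 a.2
      exact ⟨x, fun _ _ => hx⟩
    · exact ⟨Classical.arbitrary X, fun b c => (a ⟨b, c⟩).elim⟩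
  choose mx hm using h1
  exact ⟨mx, hm⟩

theorem bd (h : Kap κ) {J : Type u} (hJ : #J < κ) (F : J → K κ) : ∃ η, ∀ j, F j < η :=
  let ⟨η, hη⟩ := h.bdd (s := range F) (mk_range_le.trans_lt hJ)
  ⟨η, fun j => hη _ ⟨j, rfl⟩⟩

theorem prod_lt (h : Kap κ) {A B : Type u} (ha : #A < κ) (hb : #B < κ) : #(A × B) < κ := by
  rw [mk_prod, lift_id, lift_id]
  exact mul_lt_of_lt h.inf ha hb

theorem core (h : Kap κ) (hμ : ℵ₀ ≤ μ) (hμκ : μ < κ) (hs : ∀ k : K κ, #(Iio k) ≤ μ)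
    {O M N : Type u} [LinearOrder O] [WellFoundedLT O] (ini : ∀ a : O, #(Iio a) ≤ κ)
    [LinearOrder N] [NoMaxOrder N] [Nonempty N] (hN : #N < κ) (hM : #M = μ) :
    ∃ c : O → O → K κ, ∀ (f : K κ → K κ → O) (t : N → M → O) (β : O), Sq f →
      (∀ n, Function.Injective (t n)) → (∀ n n' j j', n < n' → t n j < t n' j') →
      (∀ i j n m, f i j < t n m) → (∀ n m, t n m < β) →
      ∀ δ, ∃ i j n m, c (f i j) (t n m) = δ := by
  obtain ⟨k₀, -⟩ := h.ne (s := (univ : Set (K κ))) (by simp)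
  have : Nonempty (K κ) := ⟨k₀⟩
  obtain ⟨s, e, ι, H⟩ := exists_en h ini
  obtain ⟨Γ, ind, hΓ, hind⟩ := exists_enum (κ := κ)
    (D := {S : Set (K κ) | S ⊆ univ ∧ #S < κ}) (h.sm (by simp))
    ⟨∅, empty_subset _, h.fin finite_empty⟩
  obtain ⟨g, -, hg⟩ := H.dom h fun _ _ => k₀
  choose F hF using fun (b : O) (ν : K κ) =>
    bd h (iio_lt ν) fun α => ind ((fun ξ => g (s b ξ) ν) '' Γ α.1)
  obtain ⟨Φ, hΦ, hΦ'⟩ := H.dom h F
  obtain ⟨hh, hhh⟩ := exists_onto hμ hs Γ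
  obtain ⟨mx, hmx⟩ := exists_mx (K κ)
  refine ⟨fun a b => hh (mx {ν | Wk s ι a b ν})
    (g b (mx {ν | Wk s ι a b ν ∧ Φ b ν < mx {ν | Wk s ι a b ν}})),
    fun f t β hf t1 t2 ft tb δ => ?_⟩
  have hM' : #M < κ := hM.trans_lt hμκ
  have hI := prod_lt h hN hM'
  obtain ⟨j₀⟩ : Nonempty M := mk_ne_zero_iff.1 (aleph0_pos.trans_le (hμ.trans hM.ge)).ne'
  obtain ⟨n₀⟩ : Nonempty N := inferInstance
  choose η₀ h₀ using fun p : N × M => H.coh h β (t p.1 p.2) (tb _ _).le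
  obtain ⟨η₁, h₁⟩ := bd h hI η₀
  obtain ⟨η₂, h₂⟩ := bd h (prod_lt h hI hI) fun p => e (t p.1.1 p.1.2) (t p.2.1 p.2.2)
  obtain ⟨η₃, h₃⟩ := bd h hI fun p => e β (t p.1 p.2)
  obtain ⟨η₄, h₄⟩ := bd h (prod_lt h hN hN) fun p => ind (range fun j => e (t p.1 j₀) (t p.2 j))
  obtain ⟨η, hη⟩ := h.bdd (s := {η₁, η₂, η₃, η₄, δ}) (h.fin (toFinite _))
  have l₁ : η₁ < η := hη _ (by simp)
  have l₂ : η₂ < η := hη _ (by simp)
  have l₃ : η₃ < η := hη _ (by simp)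
  have l₄ : η₄ < η := hη _ (by simp)
  have l₅ : δ < η := hη _ (by simp)
  obtain ⟨i, j, ν, ν', w1, w2, w3, w4⟩ := H.nosq h η (Φ β) β f hf
    fun i j => ((ft i j n₀ j₀).trans (tb _ _)).le
  obtain ⟨x, hx, hx'⟩ := exists_max_image _ id (H.finite (f i j) β) ⟨ν, w1⟩
  have co : ∀ n m y, η < y → (Wk s ι (f i j) β y ↔ Wk s ι (f i j) (t n m) y) := fun n m y r =>
    h₀ (n, m) _ (ft _ _ _ _).le y ((h₁ _).trans (l₁.trans r))
  have lx : η < x := w3.trans_le (hx' ν w1)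
  have X : ∀ n m, mx {y | Wk s ι (f i j) (t n m) y} = x := fun n m => by
    have a := (co n m x lx).1 hx
    obtain ⟨b, c⟩ := hmx _ (H.finite (f i j) (t n m)) ⟨x, a⟩
    exact le_antisymm (hx' _ ((co n m _ (lx.trans_le (c x a))).2 b)) (c x a)
  let v : N → M → K κ := fun n m => mx {y | Wk s ι (f i j) (t n m) y ∧ Φ (t n m) y < x}
  have mem : ∀ n m, Wk s ι (f i j) (t n m) ν ∧ Φ (t n m) ν < x := fun n m =>
    ⟨(co n m ν w3).1 w1, (hΦ' _ _ ν (tb n m) ((h₃ (n, m)).trans (l₃.trans w3))).trans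
      (w4.trans_le (hx' ν' w2))⟩
  have hv : ∀ n m, (Wk s ι (f i j) (t n m) (v n m) ∧ Φ (t n m) (v n m) < x) ∧
      ∀ y, Wk s ι (f i j) (t n m) y ∧ Φ (t n m) y < x → y ≤ v n m := fun n m =>
    hmx {y | Wk s ι (f i j) (t n m) y ∧ Φ (t n m) y < x}
      ((H.finite (f i j) (t n m)).subset fun y hy => hy.1) ⟨ν, mem n m⟩
  have lv : ∀ n m, η < v n m := fun n m => w3.trans_le ((hv n m).2 ν (mem n m))
  have anti : ∀ n m n' m', n < n' → v n' m' ≤ v n m := fun n m n' m' r =>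
    (hv n m).2 _ ⟨(co n m _ (lv n' m')).1 ((co n' m' _ (lv n' m')).2 (hv n' m').1.1),
      (hΦ' _ _ _ (t2 _ _ _ _ r) ((h₂ ((n', m'), n, m)).trans (l₂.trans (lv n' m')))).trans
        (hv n' m').1.2⟩
  obtain ⟨_, ⟨n₁, rfl⟩, hm⟩ := wellFounded_lt.has_min (range fun n => v n j₀) ⟨_, n₀, rfl⟩
  obtain ⟨n₂, r₂⟩ := exists_gt n₁
  obtain ⟨n₃, r₃⟩ := exists_gt n₂
  have cst : ∀ m, v n₂ m = v n₃ j₀ := fun m =>
    le_antisymm ((anti _ j₀ _ m r₂).trans (not_lt.1 (hm _ ⟨n₃, rfl⟩))) (anti _ m _ j₀ r₃)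
  have inj : Function.Injective fun m => g (t n₂ m) (v n₃ j₀) := fun m m' r => by
    rcases lt_trichotomy (t n₂ m) (t n₂ m') with a | a | a
    · exact absurd r (hg _ _ _ a ((h₂ ((n₂, m'), n₂, m)).trans (l₂.trans (lv _ _)))).ne
    · exact t1 _ a
    · exact absurd r (hg _ _ _ a ((h₂ ((n₂, m), n₂, m')).trans (l₂.trans (lv _ _)))).ne'
  have e1 := hF (t n₃ j₀) (v n₃ j₀) ⟨_, (h₄ (n₃, n₂)).trans (l₄.trans (lv _ _))⟩
  have e2 : (fun ξ => g (s (t n₃ j₀) ξ) (v n₃ j₀)) '' Γ (ind (range fun m =>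
      e (t n₃ j₀) (t n₂ m))) = range fun m => g (t n₂ m) (v n₃ j₀) := by
    rw [hind _ ⟨subset_univ _, mk_range_le.trans_lt hM'⟩, ← range_comp]
    exact congrArg range (funext fun m => congrArg (fun b => g b (v n₃ j₀))
      (H.inv (t2 _ _ _ _ r₃)))
  have e3 := hind (range fun m => g (t n₂ m) (v n₃ j₀)) ⟨subset_univ _, mk_range_le.trans_lt hM'⟩
  obtain ⟨p, p1, p2⟩ := hhh x (ind (range fun m => g (t n₂ m) (v n₃ j₀))) δ
    ((e2 ▸ e1).trans ((hΦ _ _).trans (hv n₃ j₀).1.2)) (l₅.trans lx)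
    (by rw [e3, mk_range_eq _ inj, hM])
  rw [e3] at p1
  obtain ⟨m, rfl⟩ := p1
  refine ⟨i, j, n₂, m, ?_⟩
  beta_reduce
  rw [X, ← p2, ← cst m]

theorem type_lex (α β : Type u) [LinearOrder α] [WellFoundedLT α] [LinearOrder β]
    [WellFoundedLT β] : Ordinal.type (α := α ×ₗ β) (· < ·) =
      Ordinal.type (α := β) (· < ·) * Ordinal.type (α := α) (· < ·) :=
  Ordinal.type_prod_lex (α := β) (β := α) (· < ·) (· < ·)

/-- a set of type `κ * κ + μ * ω` splits into a square and a sequence of blocks above it -/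
theorem split {O : Type u} [LinearOrder O] [WellFoundedLT O] {A : Set O}
    (hA : Ordinal.type (fun x y : A => x < y) = κ.ord * κ.ord + μ.ord * Ordinal.omega0) :
    ∃ (f : K κ → K κ → O) (t : K.{u} ℵ₀ → K μ → O), Sq f ∧ (∀ n, Function.Injective (t n)) ∧
      (∀ n n' j j', n < n' → t n j < t n' j') ∧ (∀ i j n m, f i j < t n m) ∧
      (∀ i j, f i j ∈ A) ∧ ∀ n m, t n m ∈ A := by
  obtain ⟨G⟩ := (Ordinal.type_le_iff' (s := fun x y : A => x < y)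
    (r := Sum.Lex (fun x y : K κ ×ₗ K κ => x < y) fun x y : K ℵ₀ ×ₗ K μ => x < y)).1 (by
      rw [Ordinal.type_sum_lex, type_lex, type_lex, hA]
      simp only [Ordinal.type_toType, ord_aleph0, le_refl])
  refine ⟨fun i j => G (Sum.inl (toLex (i, j))), fun n m => G (Sum.inr (toLex (n, m))),
    ⟨fun i j j' r => ?_, fun i i' j j' r => ?_⟩, fun n => StrictMono.injective fun j j' r => ?_,
    fun n n' j j' r => ?_, fun i j n m => ?_, fun _ _ => (G _).2, fun _ _ => (G _).2⟩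
  · exact G.map_rel_iff.2 (Sum.Lex.inl (Prod.Lex.toLex_lt_toLex.2 (Or.inr ⟨rfl, r⟩)))
  · exact G.map_rel_iff.2 (Sum.Lex.inl (Prod.Lex.toLex_lt_toLex.2 (Or.inl r)))
  · exact G.map_rel_iff.2 (Sum.Lex.inr (Prod.Lex.toLex_lt_toLex.2 (Or.inr ⟨rfl, r⟩)))
  · exact G.map_rel_iff.2 (Sum.Lex.inr (Prod.Lex.toLex_lt_toLex.2 (Or.inl r)))
  · exact G.map_rel_iff.2 (Sum.Lex.sep _ _)

theorem bdd_succ (hκ : ℵ₀ ≤ κ) {J : Type u} (hJ : #J ≤ κ) (F : J → K (Order.succ κ)) :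
    ∃ β, ∀ j, F j < β := by
  by_contra hn
  push Not at hn
  have e : (univ : Set (K (Order.succ κ))) ⊆ ⋃ j, Iio (F j) ∪ {F j} := fun k _ => by
    obtain ⟨j, hj⟩ := hn k
    exact mem_iUnion.2 ⟨j, hj.lt_or_eq⟩
  have hr := isRegular_succ hκ
  have := (mk_le_mk_of_subset e).trans_lt
    ((card_iUnion_lt_iff_forall_of_isRegular hr (Order.lt_succ_iff.2 hJ)).2 fun j =>
      (mk_union_le _ _).trans_lt (add_lt_of_lt hr.aleph0_le (iio_lt _)
        ((finite_singleton _).lt_aleph0.trans_le hr.aleph0_le)))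
  simp at this

/-- the symmetric colouring with `μ ^ +` colours that is onto on every large rectangle -/
theorem onto (hμ : ℵ₀ ≤ μ) (hpow : Order.succ μ ^< Order.succ μ = Order.succ μ) :
    ∃ c : K (Order.succ (Order.succ μ)) → K (Order.succ (Order.succ μ)) → K (Order.succ μ),
      ∀ A B : Set (K (Order.succ (Order.succ μ))),
        Ordinal.type (fun x y : A => x < y) =
          (Order.succ μ).ord * (Order.succ μ).ord + μ.ord * Ordinal.omega0 →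
        Ordinal.type (fun x y : B => x < y) =
          (Order.succ μ).ord * (Order.succ μ).ord + μ.ord * Ordinal.omega0 →
        ∀ δ, ∃ a ∈ A, ∃ b ∈ B, c a b = δ := by
  have l := Order.lt_succ μ
  have h := kap_of (hμ.trans l.le) hpow
  have := Cardinal.noMaxOrder (c := ℵ₀) le_rfl
  have hN : #(K ℵ₀) < Order.succ μ := by simpa using hμ
  obtain ⟨c, hc⟩ := core h hμ l (fun k => Order.lt_succ_iff.1 (iio_lt k))
    (O := K (Order.succ (Order.succ μ))) (M := K μ) (N := K ℵ₀)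
    (fun a => Order.lt_succ_iff.1 (iio_lt a)) hN (by simp)
  have hI : #(K ℵ₀ × K μ) ≤ Order.succ μ := (prod_lt h hN (by simp)).le
  refine ⟨fun a b => c (min a b) (max a b), fun A B hA hB δ => ?_⟩
  obtain ⟨f, t, a1, a2, a3, a4, a5, a6⟩ := split hA
  obtain ⟨f', t', b1, b2, b3, b4, b5, b6⟩ := split hB
  by_cases r : ∀ i j n m, f i j < t' n m
  · obtain ⟨β, hβ⟩ := bdd_succ h.inf hI fun p => t' p.1 p.2
    obtain ⟨i, j, n, m, q⟩ := hc f t' β a1 b2 b3 r (fun n m => hβ (n, m)) δ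
    refine ⟨_, a5 i j, _, b6 n m, ?_⟩
    beta_reduce
    rw [min_eq_left (r i j n m).le, max_eq_right (r i j n m).le, q]
  · push Not at r
    obtain ⟨i₀, j₀, n₀, m₀, r⟩ := r
    have r' : ∀ i j n m, f' i j < t n m := fun i j n m =>
      (b4 i j n₀ m₀).trans (r.trans_lt (a4 _ _ n m))
    obtain ⟨β, hβ⟩ := bdd_succ h.inf hI fun p => t p.1 p.2
    obtain ⟨i, j, n, m, q⟩ := hc f' t β b1 a2 a3 r' (fun n m => hβ (n, m)) δ
    refine ⟨_, a6 n m, _, b5 i j, ?_⟩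
    beta_reduce
    rw [min_eq_right (r' i j n m).le, max_eq_left (r' i j n m).le, q]

end Pool.Agent.MP_c6cf52_lc.N
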