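import Pool.Agent.MP_c6cf52_lc.W.Real

/-! Walks along enumerations of the initial segments: coherence and thin sets. -/

namespace Pool.Agent.MP_c6cf52_lc.N

open Cardinal Set Sis W

universe u

variable {κ : Cardinal.{u}} {O : Type u} [LinearOrder O]

/-- enumerations of the initial segments and the first index that passes a point -/
structure En (s : O → K κ → O) (e ι : O → O → K κ) : Prop where
  lt : ∀ {a b : O}, a < b → ∀ k, s b k < b
  inv : ∀ {a b : O}, a < b → s b (e b a) = a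
  le : ∀ {a b : O}, a < b → a ≤ s b (ι b a)
  min : ∀ {a b : O}, a < b → ∀ k, a ≤ s b k → ι b a ≤ k

theorem nomax (h : Kap κ) (k : K κ) : ∃ k', k < k' := by
  obtain ⟨k', hk⟩ := h.bdd (h.fin (finite_singleton k))
  exact ⟨k', hk k rfl⟩

theorem exists_en (h : Kap κ) (ini : ∀ a : O, #(Iio a) ≤ κ) :
    ∃ (s : O → K κ → O) (e ι : O → O → K κ), En s e ι := by
  obtain ⟨k₀, -⟩ := h.ne (s := (univ : Set (K κ))) (by simp)
  have h1 : ∀ b : O, ∃ (s : K κ → O) (e : O → K κ), ∀ a < b, (∀ k, s k < b) ∧ s (e a) = a :=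
    fun b => by
      rcases (Iio b).eq_empty_or_nonempty with r | r
      · exact ⟨fun _ => b, fun _ => k₀, fun a ha => (r.subset ha).elim⟩
      · obtain ⟨s, e, h2, h3⟩ := exists_enum (ini b) r
        exact ⟨s, e, fun a ha => ⟨h2, h3 a ha⟩⟩
  choose s e hs using h1
  have h2 : ∀ b a : O, ∃ i : K κ, a < b → a ≤ s b i ∧ ∀ k, a ≤ s b k → i ≤ k := fun b a => by
    by_cases r : a < b
    · obtain ⟨i, hi, hm⟩ := wellFounded_lt.has_min {k | a ≤ s b k} ⟨e b a, (hs b a r).2.ge⟩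
      exact ⟨i, fun _ => ⟨hi, fun k hk => not_lt.1 (hm k hk)⟩⟩
    · exact ⟨k₀, fun r' => (r r').elim⟩
  choose ι hι using h2
  exact ⟨s, e, ι, fun r => (hs _ _ r).1, fun r => (hs _ _ r).2, fun r => (hι _ _ r).1,
    fun r => (hι _ _ r).2⟩

variable {s : O → K κ → O} {e ι : O → O → K κ}

theorem En.mono (H : En s e ι) {a a' b : O} (h1 : a ≤ a') (h2 : a' < b) : ι b a ≤ ι b a' :=
  H.min (h1.trans_lt h2) _ (h1.trans (H.le h2))

theorem En.inj (H : En s e ι) {a a' b : O} (h1 : a < b) (h2 : a' < b) (r : e b a = e b a') :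
    a = a' := by
  rw [← H.inv h1, r, H.inv h2]

/-- the indices that the walk from `b` down to `a` uses -/
inductive Wk (s : O → K κ → O) (ι : O → O → K κ) (a : O) : O → K κ → Prop
  | here (b : O) : a < b → Wk s ι a b (ι b a)
  | next (b : O) (ν : K κ) : a < b → Wk s ι a (s b (ι b a)) ν → Wk s ι a b ν

theorem wk_iff {a b : O} {ν : K κ} :
    Wk s ι a b ν ↔ a < b ∧ (ν = ι b a ∨ Wk s ι a (s b (ι b a)) ν) := by
  refine ⟨fun r => ?_, fun r => r.2.elim (fun t => t ▸ Wk.here b r.1) (Wk.next b ν r.1)⟩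
  cases r with
  | here _ r => exact ⟨r, Or.inl rfl⟩
  | next _ _ r r' => exact ⟨r, Or.inr r'⟩

variable [WellFoundedLT O]

theorem En.finite (H : En s e ι) (a b : O) : {ν | Wk s ι a b ν}.Finite := by
  induction b using WellFoundedLT.induction with
  | ind b ih =>
    by_cases r : a < b
    · exact ((ih _ (H.lt r (ι b a))).insert (ι b a)).subset fun ν hν => (wk_iff.1 hν).2
    · exact finite_empty.subset fun ν hν => r (wk_iff.1 hν).1

theorem En.small (H : En s e ι) (h : Kap κ) (γ : K κ) (b : O) :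
    #{a | a ≤ b ∧ ∀ ν, Wk s ι a b ν → ν ≤ γ} < κ := by
  induction b using WellFoundedLT.induction with
  | ind b ih =>
    by_cases r : ∃ a, a < b
    · obtain ⟨a₀, r⟩ := r
      refine (mk_le_mk_of_subset fun a ha => ?_).trans_lt (h.lt2 (h.fin (finite_singleton b))
        (h.ltU (iic_lt h γ) fun ξ => ih _ (H.lt r ξ.1)))
      rcases ha.1.eq_or_lt with t | t
      · exact Or.inl t
      · exact Or.inr (mem_iUnion.2 ⟨⟨ι b a, ha.2 _ (Wk.here b t)⟩, H.le t,
          fun ν hν => ha.2 ν (Wk.next b ν t hν)⟩)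
    · refine (mk_le_mk_of_subset fun a ha => ?_).trans_lt (h.fin (finite_singleton b))
      exact ha.1.eq_or_lt.resolve_right fun t => r ⟨a, t⟩

theorem En.coh (H : En s e ι) (h : Kap κ) (b : O) : ∀ b' ≤ b, ∃ η : K κ, ∀ a ≤ b', ∀ ν, η < ν →
    (Wk s ι a b ν ↔ Wk s ι a b' ν) := by
  induction b using WellFoundedLT.induction with
  | ind b ih =>
    intro b' hb
    rcases hb.eq_or_lt with rfl | r
    · obtain ⟨k₀, -⟩ := h.ne (s := (univ : Set (K κ))) (by simp)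
      exact ⟨k₀, fun _ _ _ _ => Iff.rfl⟩
    have h1 : ∀ ξ : K κ, ∃ η : K κ, ∀ a ≤ b', a ≤ s b ξ → ∀ ν, η < ν →
        (Wk s ι a (s b ξ) ν ↔ Wk s ι a b' ν) := fun ξ => by
      rcases le_total b' (s b ξ) with t | t
      · obtain ⟨η, hη⟩ := ih _ (H.lt r ξ) b' t
        exact ⟨η, fun a ha _ => hη a ha⟩
      · obtain ⟨η, hη⟩ := ih b' r _ t
        exact ⟨η, fun a _ ha ν hν => (hη a ha ν hν).symm⟩
    choose η hη using h1
    obtain ⟨η', h'⟩ := h.bdd (s := η '' Iic (ι b b') ∪ {ι b b'})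
      (h.lt2 (mk_image_le.trans_lt (iic_lt h _)) (h.fin (finite_singleton _)))
    refine ⟨η', fun a ha ν hν => ?_⟩
    have r' := ha.trans_lt r
    have m := H.mono ha r
    rw [wk_iff, ← hη (ι b a) a ha (H.le r') ν ((h' _ (Or.inl ⟨_, m, rfl⟩)).trans hν)]
    exact ⟨fun t => t.2.resolve_left (m.trans_lt ((h' _ (Or.inr rfl)).trans hν)).ne',
      fun t => ⟨r', Or.inr t⟩⟩

/-- a copy of the square of `κ` -/
def Sq (f : K κ → K κ → O) : Prop :=
  (∀ i, StrictMono (f i)) ∧ ∀ i i' j j', i < i' → f i j < f i' j'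

theorem pig (h : Kap κ) (g : K κ → K κ) (γ : K κ) (hg : ∀ j, g j ≤ γ) :
    ∃ ξ, Unb {j | g j = ξ} := by
  obtain ⟨ξ, hξ⟩ := (unb_of_card h (H := univ) (by simp)).pig h (iic_lt h γ)
    fun j => (⟨g j, hg j⟩ : Iic γ)
  exact ⟨ξ.1, hξ.mono fun j hj => congrArg Subtype.val hj.2⟩

theorem exists_seq {S : Set O} (h : κ ≤ #S) : ∃ t : K κ → O, StrictMono t ∧ ∀ x, t x ∈ S :=
  exists_mono (by rw [Ordinal.type_toType]; exact ord_le_ord.2 h)

theorem En.nosq (H : En s e ι) (h : Kap κ) (η : K κ) (φ : K κ → K κ) (b : O) :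
    ∀ f : K κ → K κ → O, Sq f → (∀ i j, f i j ≤ b) →
      ∃ i j ν ν', Wk s ι (f i j) b ν ∧ Wk s ι (f i j) b ν' ∧ η < ν ∧ φ ν < ν' := by
  induction b using WellFoundedLT.induction with
  | ind b ih =>
    intro f hf hb
    have lt : ∀ i j, f i j < b := fun i j => by
      obtain ⟨j', hj⟩ := nomax h j
      exact (hf.1 i hj).trans_le (hb i j')
    have mo : ∀ i i' j j', i < i' → ι b (f i j) ≤ ι b (f i' j') := fun i i' j j' r =>
      H.mono (hf.2 i i' j j' r).le (lt _ _)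
    by_cases r : ∃ i j, η < ι b (f i j)
    · obtain ⟨i, j, r⟩ := r
      obtain ⟨i', hi⟩ := nomax h i
      obtain ⟨i'', hi'⟩ := nomax h i'
      obtain ⟨ξ, hξ⟩ := pig h (fun x => ι b (f i' x)) _ fun x => mo i' i'' x j hi'
      by_contra hn
      push Not at hn
      refine (H.small h (φ ξ) b).not_ge ((card_of_unb h hξ).trans ?_)
      rw [← mk_image_eq (hf.1 i').injective]
      refine mk_le_mk_of_subset ?_
      rintro _ ⟨x, hx, rfl⟩
      have hx' : ι b (f i' x) = ξ := hx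
      exact ⟨hb _ _, fun ν hν => hn i' x ξ ν (hx' ▸ Wk.here b (lt _ _)) hν
        (hx' ▸ r.trans_le (mo i i' j x hi))⟩
    · push Not at r
      obtain ⟨ξ, hξ⟩ := pig h (fun i => ι b (f i η)) η fun i => r i η
      obtain ⟨i₀, h₀, -⟩ := hξ η
      obtain ⟨u, hu, hu'⟩ := exists_seq (card_of_unb h (H := Ioi i₀) fun β => by
        obtain ⟨k, hk⟩ := nomax h (max β i₀)
        exact ⟨k, (le_max_right _ _).trans_lt hk, (le_max_left _ _).trans_lt hk⟩)
      have eq : ∀ i j, ι b (f (u i) j) = ξ := fun i j => by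
        obtain ⟨i₁, h₁, h₂⟩ := hξ (u i)
        exact le_antisymm ((mo _ _ j η h₂).trans h₁.le) (h₀.ge.trans (mo _ _ η j (hu' i)))
      obtain ⟨i, j, ν, ν', a1, a2, a3⟩ := ih (s b ξ) (H.lt (lt η η) ξ) (fun i => f (u i))
        ⟨fun i => hf.1 _, fun i i' j j' t => hf.2 _ _ j j' (hu t)⟩
        fun i j => eq i j ▸ H.le (lt _ _)
      exact ⟨u i, j, ν, ν', Wk.next b ν (lt _ _) ((eq i j).symm ▸ a1),
        Wk.next b ν' (lt _ _) ((eq i j).symm ▸ a2), a3⟩

/-- functions that grow along the enumerations -/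
theorem En.dom (H : En s e ι) (h : Kap κ) (F : O → K κ → K κ) : ∃ Φ : O → K κ → K κ,
    (∀ b ν, F b ν < Φ b ν) ∧ ∀ b' b ν, b' < b → e b b' < ν → Φ b' ν < Φ b ν := by
  have : Nonempty (K κ → K κ) := ⟨id⟩
  obtain ⟨Φ, hΦ⟩ := exists_rec (α := O) (Z := K κ → K κ)
    (fun b g z => ∀ ν, F b ν < z ν ∧ ∀ b' hb, e b b' < ν → g b' hb ν < z ν) fun b g _ => by
      have h1 : ∀ ν, ∃ y, F b ν < y ∧ ∀ b' hb, e b b' < ν → g b' hb ν < y := fun ν => by
        obtain ⟨y, hy⟩ := h.bdd (s := {F b ν} ∪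
          range fun p : {j : Iio b | e b j.1 < ν} => g p.1.1 p.1.2 ν)
          (h.lt2 (h.fin (finite_singleton _)) (mk_range_le.trans_lt
            ((mk_le_of_injective (f := fun p => (⟨e b p.1.1, p.2⟩ : Iio ν)) fun p q r =>
              Subtype.ext (Subtype.ext (H.inj p.1.2 q.1.2 (congrArg Subtype.val r)))).trans_lt
                (iio_lt ν))))
        exact ⟨y, hy _ (Or.inl rfl), fun b' hb r => hy _ (Or.inr ⟨⟨⟨b', hb⟩, r⟩, rfl⟩)⟩
      choose z hz using h1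
      exact ⟨z, hz⟩
  exact ⟨Φ, fun b ν => (hΦ b ν).1, fun b' b ν r => (hΦ b ν).2 b' r⟩

end Pool.Agent.MP_c6cf52_lc.N
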